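import Mathlib

/-!
# The cheating robot cop number is not monotone under connected subgraphs

We give a connected graph `G` on seven vertices with eleven edges and one of its edges `e` such that
`G - e` is connected, two cops capture the cheating robot on `G`, and two cops do not capture the
cheating robot on `G - e`.
-/

namespace Pool.Agent.Results.MP_55b43c_co.NotMonotone

section Defs

variable {V : Type*}

/-- Move to a vertex of the closed neighbourhood. -/
def Step (G : SimpleGraph V) (u v : V) : Prop := u = v ∨ G.Adj u v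

/-- In a round a cop moves from `c` to `d` and then the robot moves from `r` to `s`: the robot is
captured by this cop if it ends on the vertex of the cop or if it traverses the edge just traversed
by the cop. -/
def Captured (c d r s : V) : Prop := d = s ∨ (r ≠ s ∧ c ≠ d ∧ s(c, d) = s(r, s))

/-- `k` cops have a winning strategy against the cheating robot.  A strategy `σ` gives the initial
positions `σ []` and, after the robot has been at `r 0, …, r t`, the next positions
`σ [r 0, …, r t]` of the cops; then the robot moves to `r (t + 1)`.  The proposition `b` says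
whether a robot that is initially placed on the vertex of a cop is captured at once. -/
def CopsWin (b : Prop) (G : SimpleGraph V) (k : ℕ) : Prop :=
  ∃ σ : List V → Fin k → V, ∀ r : ℕ → V, (∀ t, Step G (r t) (r (t + 1))) →
    (∀ t i, Step G (σ ((List.range t).map r) i) (σ ((List.range (t + 1)).map r) i)) ∧
    ((b ∧ ∃ i, σ [] i = r 0) ∨
      ∃ t i, Captured (σ ((List.range t).map r) i) (σ ((List.range (t + 1)).map r) i)
        (r t) (r (t + 1)))

/-- The cheating robot cop number. -/
noncomputable def crNumber (b : Prop) (G : SimpleGraph V) : ℕ := sInf {k | CopsWin b G k}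

theorem foldl_range_succ {α : Type*} (f : α → V → α) (a : α) (r : ℕ → V) (t : ℕ) :
    List.foldl f a ((List.range (t + 1)).map r) =
      f (List.foldl f a ((List.range t).map r)) (r t) := by
  rw [List.range_succ, List.map_append, List.foldl_append]
  rfl

/-- A positional strategy that decreases a rank wins. -/
theorem copsWin_of_rank {b : Prop} {G : SimpleGraph V} {k : ℕ} (c₀ : Fin k → V)
    (next : (Fin k → V) → V → (Fin k → V)) (hM : ∀ c r i, Step G (c i) (next c r i))
    (rank : (Fin k → V) → V → ℕ)
    (hdec : ∀ c r r', Step G r r' → (∃ i, Captured (c i) (next c r i) r r') ∨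
      rank (next c r) r' < rank c r) : CopsWin b G k := by
  refine ⟨fun h => List.foldl next c₀ h, fun r hr => ⟨fun t i => ?_, Or.inr ?_⟩⟩
  · show Step G (List.foldl next c₀ ((List.range t).map r) i)
      (List.foldl next c₀ ((List.range (t + 1)).map r) i)
    rw [foldl_range_succ next c₀ r t]
    exact hM _ _ _
  · by_contra hno
    push Not at hno
    have key : ∀ t, rank (List.foldl next c₀ ((List.range t).map r)) (r t) + t ≤
        rank (List.foldl next c₀ ((List.range 0).map r)) (r 0) := by
      intro t
      induction t with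
      | zero => simp
      | succ t ih =>
        have h := hdec (List.foldl next c₀ ((List.range t).map r)) (r t) (r (t + 1)) (hr t)
        rcases h with ⟨i, h⟩ | h
        · rw [← foldl_range_succ next c₀ r t] at h
          exact absurd h (hno t i)
        · rw [foldl_range_succ next c₀ r t]
          omega
    have := key (rank (List.foldl next c₀ ((List.range 0).map r)) (r 0) + 1)
    omega

theorem CopsWin.of_surjective {b : Prop} {G : SimpleGraph V} {k m : ℕ} (h : CopsWin b G k)
    (φ : Fin m → Fin k) (hφ : Function.Surjective φ) : CopsWin b G m := by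
  obtain ⟨σ, hσ⟩ := h
  refine ⟨fun l i => σ l (φ i), fun r hr => ?_⟩
  obtain ⟨h1, h2⟩ := hσ r hr
  refine ⟨fun t i => h1 t (φ i), ?_⟩
  rcases h2 with ⟨hb, i, h2⟩ | ⟨t, i, h2⟩
  · obtain ⟨j, rfl⟩ := hφ i
    exact Or.inl ⟨hb, j, h2⟩
  · obtain ⟨j, rfl⟩ := hφ i
    exact Or.inr ⟨t, j, h2⟩

theorem copsWin_card [Fintype V] (b : Prop) (G : SimpleGraph V) :
    CopsWin b G (Fintype.card V) := by
  classical
  let e := (Fintype.equivFin V).symm
  refine ⟨fun _ i => e i, fun r _ => ⟨fun t i => Or.inl rfl, Or.inr ⟨0, e.symm (r 1), ?_⟩⟩⟩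
  left
  simp

/-- If the robot has a set of safe states then two cops do not win. -/
theorem not_copsWin_two {b : Prop} {G : SimpleGraph V} (Safe : V → V → V → Prop)
    (hstart : ∀ c d, ∃ r, c ≠ r ∧ d ≠ r ∧ Safe c d r)
    (hstep : ∀ c d r c' d', Safe c d r → Step G c c' → Step G d d' →
      ∃ s, Step G r s ∧ ¬ Captured c c' r s ∧ ¬ Captured d d' r s ∧ Safe c' d' s) :
    ¬ CopsWin b G 2 := by
  rintro ⟨σ, hσ⟩
  obtain ⟨r0, h1, h2, h3⟩ := hstart (σ [] 0) (σ [] 1)
  have hresp : ∀ (c c' : Fin 2 → V) (r : V), ∃ s, Step G r s ∧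
      ((Safe (c 0) (c 1) r ∧ Step G (c 0) (c' 0) ∧ Step G (c 1) (c' 1)) →
        ¬ Captured (c 0) (c' 0) r s ∧ ¬ Captured (c 1) (c' 1) r s ∧ Safe (c' 0) (c' 1) s) := by
    intro c c' r
    by_cases h : Safe (c 0) (c 1) r ∧ Step G (c 0) (c' 0) ∧ Step G (c 1) (c' 1)
    · obtain ⟨s, h1, h2, h3, h4⟩ := hstep _ _ _ _ _ h.1 h.2.1 h.2.2
      exact ⟨s, h1, fun _ => ⟨h2, h3, h4⟩⟩
    · exact ⟨r, Or.inl rfl, fun h' => absurd h' h⟩
  choose f hf1 hf2 using hresp
  let pl : ℕ → List V × V := fun t => Nat.rec ([], r0)
    (fun _ s => (s.1 ++ [s.2], f (σ s.1) (σ (s.1 ++ [s.2])) s.2)) t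
  have pl_succ : ∀ t, pl (t + 1) =
      ((pl t).1 ++ [(pl t).2], f (σ (pl t).1) (σ ((pl t).1 ++ [(pl t).2])) (pl t).2) :=
    fun t => rfl
  set r : ℕ → V := fun t => (pl t).2 with hr
  have hhist : ∀ t, (List.range t).map r = (pl t).1 := by
    intro t
    induction t with
    | zero => rfl
    | succ t ih =>
      rw [List.range_succ, List.map_append, ih, pl_succ]
      rfl
  have hrstep : ∀ t, r (t + 1) = f (σ ((List.range t).map r)) (σ ((List.range (t + 1)).map r))
      (r t) := by
    intro t
    rw [hhist (t + 1), hhist t]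
  obtain ⟨hlegal, hcap⟩ := hσ r (fun t => by rw [hrstep]; exact hf1 _ _ _)
  have hinv : ∀ t, Safe (σ ((List.range t).map r) 0) (σ ((List.range t).map r) 1) (r t) := by
    intro t
    induction t with
    | zero => exact h3
    | succ t ih =>
      have := (hf2 (σ ((List.range t).map r)) (σ ((List.range (t + 1)).map r)) (r t)
        ⟨ih, hlegal t 0, hlegal t 1⟩).2.2
      rw [← hrstep] at this
      exact this
  have hnc : ∀ t, ¬ Captured (σ ((List.range t).map r) 0) (σ ((List.range (t + 1)).map r) 0)
      (r t) (r (t + 1)) ∧ ¬ Captured (σ ((List.range t).map r) 1)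
      (σ ((List.range (t + 1)).map r) 1) (r t) (r (t + 1)) := by
    intro t
    have := hf2 (σ ((List.range t).map r)) (σ ((List.range (t + 1)).map r)) (r t)
      ⟨hinv t, hlegal t 0, hlegal t 1⟩
    rw [← hrstep] at this
    exact ⟨this.1, this.2.1⟩
  rcases hcap with ⟨-, i, h⟩ | ⟨t, i, h⟩
  · fin_cases i
    · exact h1 h
    · exact h2 h
  · fin_cases i
    · exact (hnc t).1 h
    · exact (hnc t).2 h

end Defs

/-! ### The graphs -/

/-- Adjacency matrix (49 bits) of the large graph. -/
def maskG : ℕ := 0x9eb292da3450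
/-- Adjacency matrix (49 bits) of the subgraph. -/
def maskH : ℕ := 0x1cb292da3450

/-- The adjacency stored in a mask. -/
def adjM (m : ℕ) (a b : Fin 7) : Bool := Nat.testBit m (7 * a.val + b.val)

/-- The graph with edges `04 06 13 15 16 23 25 26 34 45 56`. -/
def G : SimpleGraph (Fin 7) where
  Adj a b := adjM maskG a b = true
  symm := ⟨by decide⟩
  loopless := ⟨by decide⟩

/-- The graph `G` without the edge `56`. -/
def H : SimpleGraph (Fin 7) where
  Adj a b := adjM maskH a b = true
  symm := ⟨by decide⟩
  loopless := ⟨by decide⟩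

theorem H_le : H ≤ G := by
  intro a b h
  have : ∀ a b : Fin 7, adjM maskH a b = true → adjM maskG a b = true := by decide
  exact this a b h

theorem H_connected : H.Connected := by
  have h : ∀ a b : Fin 7, ∃ c, (a = c ∨ adjM maskH a c = true) ∧
      ∃ d, (c = d ∨ adjM maskH c d = true) ∧ (d = b ∨ adjM maskH d b = true) := by decide
  have hr : ∀ a b : Fin 7, (a = b ∨ adjM maskH a b = true) → H.Reachable a b := by
    rintro a b (rfl | h)
    · exact SimpleGraph.Reachable.refl _
    · exact SimpleGraph.Adj.reachable (G := H) h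
  refine SimpleGraph.Connected.mk fun a b => ?_
  obtain ⟨c, h1, d, h2, h3⟩ := h a b
  exact ((hr _ _ h1).trans (hr _ _ h2)).trans (hr _ _ h3)

/-! ### Two cops win on `G` -/

/-- Index of a state. -/
def idx (c d r : Fin 7) : ℕ := 49 * c.val + 7 * d.val + r.val

/-- Table of the ranks (octal digits). -/
def tabR : ℕ := 0x16c924b6490daec87553636b723b5b91db6da6d92436c922b5db4dca6cad6e456b722b6d915aec86d76d3b3bb6d95db5aeda6d76d36db69d54d8dca6cb6576db69b6d93d96c9ecb6d7656b723b5b915aeda764f656bb6bb5bb5db6daad6e476b722b5db4ec9ecad6ed76bb6bb6db55b6da6db6456db69db5d95b6daadb6d5b6bb2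
/-- Table of the moves of the first cop (octal digits). -/
def tab0 : ℕ := 0x149289349446b4a205a4016d28eb6a475b4da2925186928cda9db63493ada5196d48cb69465aeda2576d003a0002d005aeda2d76d16db6826126130930984924924926126131130924995376b55bdb6cd6d92ad2d6b56bb5ab5db55ba96ed66b7b6d99db13593ad66d76b36bb69b76db6d26db69b6db6006036db6d36db6800c04
/-- Table of the moves of the second cop (octal digits). -/
def tab1 : ℕ := 0x1ad56ec6ab65aeda0988999376bc5bb5edb6d35ab61b55b695db413113366f6db37b6db6db6b4a236a76d25b2426124ed56db6a76db6db616a006351380b400494494ab4b1359380180dad28eda9465b6da098499b5bb6dabdb6db6d35a91db548cb6db41311336af6db5bb6db6da5b4da35a51d6db68249265b55bada6dd24d26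

/-- An octal digit of a table. -/
def look (T : ℕ) (c d r : Fin 7) : ℕ := (T >>> (3 * idx c d r)) % 8

/-- A move stored in a table. -/
def mv (T : ℕ) (c d r : Fin 7) : Fin 7 := ⟨look T c d r % 7, Nat.mod_lt _ (by norm_num)⟩

/-- Closed neighbourhood as a Boolean. -/
def stepM (m : ℕ) (a b : Fin 7) : Bool := a == b || adjM m a b

/-- Capture as a Boolean. -/
def capB (c d r s : Fin 7) : Bool := d == s || (r != s && (c == s && d == r))

/-- Check of the cops' strategy at one state. -/
def okState (c d r : Fin 7) : Bool :=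
  let c' := mv tab0 c d r
  let d' := mv tab1 c d r
  stepM maskG c c' && stepM maskG d d' &&
    (List.finRange 7).all fun s => !(stepM maskG r s) || capB c c' r s || capB d d' r s ||
      Nat.blt (look tabR c' d' s) (look tabR c d r)

theorem ok_all : ∀ c d r : Fin 7, okState c d r = true := by decide +kernel

theorem step_iff {a b : Fin 7} : Step G a b ↔ stepM maskG a b = true := by
  simp only [Step, stepM, Bool.or_eq_true, beq_iff_eq]
  rfl

theorem stepH_iff {a b : Fin 7} : Step H a b ↔ stepM maskH a b = true := by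
  simp only [Step, stepM, Bool.or_eq_true, beq_iff_eq]
  rfl

theorem captured_iff {c d r s : Fin 7} : Captured c d r s ↔ capB c d r s = true := by
  simp only [Captured, capB, Bool.or_eq_true, beq_iff_eq, Bool.and_eq_true, bne_iff_ne, ne_eq,
    Sym2.eq_iff]
  constructor
  · rintro (h | ⟨h1, h2, ⟨h3, h4⟩ | ⟨h3, h4⟩⟩)
    · exact Or.inl h
    · exact Or.inl h4
    · exact Or.inr ⟨h1, h3, h4⟩
  · rintro (h | ⟨h1, h2, h3⟩)
    · exact Or.inl h
    · refine Or.inr ⟨h1, ?_, Or.inr ⟨h2, h3⟩⟩
      rintro rfl
      exact h1 (h3.symm.trans h2)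

theorem copsWin_G (b : Prop) : CopsWin b G 2 := by
  refine copsWin_of_rank (fun _ => 0)
    (fun c r => ![mv tab0 (c 0) (c 1) r, mv tab1 (c 0) (c 1) r]) ?_
    (fun c r => look tabR (c 0) (c 1) r) ?_
  · intro c r i
    have h := ok_all (c 0) (c 1) r
    simp only [okState, Bool.and_eq_true] at h
    fin_cases i
    · exact step_iff.2 h.1.1
    · exact step_iff.2 h.1.2
  · intro c r s hs
    have h := ok_all (c 0) (c 1) r
    simp only [okState, Bool.and_eq_true, List.all_eq_true, Bool.or_eq_true] at h
    have h1 := h.2 s (List.mem_finRange s)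
    rcases h1 with ((h1 | h1) | h1) | h1
    · rw [step_iff] at hs
      rw [hs] at h1
      simp at h1
    · exact Or.inl ⟨0, captured_iff.2 h1⟩
    · exact Or.inl ⟨1, captured_iff.2 h1⟩
    · right
      rw [Nat.blt_eq] at h1
      exact h1

/-! ### Two cops do not win on `H` -/

/-- The safe states of the robot. -/
def maskS : ℕ := 0x7ffdfbf7ffffbf7ffffff7efdfbffffffbf7efdffffffdfbf7ffdfbf7ffffbffefdfbffffdfbf7efdfbf7e

/-- The state is safe. -/
def safeB (c d r : Fin 7) : Bool := Nat.testBit maskS (idx c d r)

/-- Check of the safety of one state. -/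
def okSafe (c d r : Fin 7) : Bool :=
  !(safeB c d r) || (List.finRange 7).all fun c' => !(stepM maskH c c') ||
    (List.finRange 7).all fun d' => !(stepM maskH d d') ||
      (List.finRange 7).any fun s => stepM maskH r s && !(capB c c' r s) && !(capB d d' r s) &&
        safeB c' d' s

theorem okSafe_all : ∀ c d r : Fin 7, okSafe c d r = true := by decide +kernel

theorem safe_start : ∀ c d : Fin 7, ∃ r, c ≠ r ∧ d ≠ r ∧ safeB c d r = true := by decide +kernel

theorem not_copsWin_H (b : Prop) : ¬ CopsWin b H 2 := by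
  refine not_copsWin_two (fun c d r => safeB c d r = true) safe_start ?_
  intro c d r c' d' h hc hd
  have h1 := okSafe_all c d r
  simp only [okSafe, Bool.or_eq_true, List.all_eq_true, List.any_eq_true, Bool.and_eq_true,
    Bool.not_eq_true'] at h1
  rcases h1 with h1 | h1
  · rw [h1] at h
    simp at h
  · have h2 := h1 c' (List.mem_finRange c')
    rw [stepH_iff] at hc hd
    rcases h2 with h2 | h2
    · rw [h2] at hc
      simp at hc
    · have h3 := h2 d' (List.mem_finRange d')
      rcases h3 with h3 | h3
      · rw [h3] at hd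
        simp at hd
      · obtain ⟨s, -, ⟨⟨h4, h5⟩, h6⟩, h7⟩ := h3
        refine ⟨s, stepH_iff.2 h4, ?_, ?_, h7⟩
        · rw [captured_iff, h5]
          simp
        · rw [captured_iff, h6]
          simp

theorem three_le (b : Prop) : 3 ≤ crNumber b H := by
  have hmem' : crNumber b H ∈ {k | CopsWin b H k} := Nat.sInf_mem ⟨_, copsWin_card b H⟩
  have hmem : CopsWin b H (crNumber b H) := hmem'
  by_contra hlt
  have h : crNumber b H = 0 ∨ crNumber b H = 1 ∨ crNumber b H = 2 := by omega
  rcases h with h | h | h
  · rw [h] at hmem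
    obtain ⟨σ, hσ⟩ := hmem
    obtain ⟨-, ⟨-, i, -⟩ | ⟨t, i, -⟩⟩ := hσ (fun _ => 0) (fun t => Or.inl rfl)
    · exact i.elim0
    · exact i.elim0
  · rw [h] at hmem
    exact not_copsWin_H b
      (hmem.of_surjective (fun _ => 0) (fun i => ⟨0, (Fin.fin_one_eq_zero i).symm⟩))
  · rw [h] at hmem
    exact not_copsWin_H b hmem

/-- **The cheating robot cop number is not monotone under connected subgraphs.**  There are
connected graphs `H ≤ G` on seven vertices (`H` arises from `G` by deleting one edge) such that
two cops capture the robot on `G`, but at least three cops are needed on `H`.  This holds for both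
conventions on a robot that is initially placed on the vertex of a cop. -/
theorem result : ∃ G H : SimpleGraph (Fin 7), H ≤ G ∧ G.Connected ∧ H.Connected ∧
    (∃ e, H = G.deleteEdges {e}) ∧
    ∀ b : Prop, crNumber b G ≤ 2 ∧ 3 ≤ crNumber b H ∧ crNumber b G < crNumber b H := by
  refine ⟨G, H, H_le, H_connected.mono H_le, H_connected, ⟨s(5, 6), ?_⟩, fun b => ?_⟩
  · ext a b
    rw [SimpleGraph.deleteEdges_adj, Set.mem_singleton_iff]
    have : ∀ a b : Fin 7, adjM maskH a b = true ↔ (adjM maskG a b = true ∧ ¬ s(a, b) = s(5, 6)) := by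
      decide
    exact this a b
  · have h1 : crNumber b G ≤ 2 := Nat.sInf_le (copsWin_G b)
    have h2 := three_le b
    exact ⟨h1, h2, by omega⟩

end Pool.Agent.Results.MP_55b43c_co.NotMonotone
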